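import Mathlib
import Pool.Agent.H97.Oaj

namespace Pool.Agent.Results.MP_f32e1d_an.Counter

/-- orthogonally additive maps -/
def OA {E F : Type} [AddCommGroup E] [Lattice E] [AddCommGroup F] (T : E → F) : Prop :=
  ∀ x y, |x| ⊓ |y| = 0 → T (x + y) = T x + T y

/-- `J` is the least upper bound of `S` and `T` among the orthogonally additive maps -/
def IsJoin {E F : Type} [AddCommGroup E] [Lattice E] [AddCommGroup F] [Lattice F]
    (S T J : E → F) : Prop :=
  OA J ∧ (∀ x, S x ≤ J x) ∧ (∀ x, T x ≤ J x) ∧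
    ∀ Q : E → F, OA Q → (∀ x, S x ≤ Q x) → (∀ x, T x ≤ Q x) → ∀ x, J x ≤ Q x

open Pool.Agent.H97.Oaj in
theorem result : ∃ (E F : Type) (_ : AddCommGroup E) (_ : Lattice E) (_ : IsOrderedAddMonoid E)
    (_ : Module ℝ E) (_ : PosSMulMono ℝ E) (_ : AddCommGroup F) (_ : Lattice F)
    (_ : IsOrderedAddMonoid F) (_ : Module ℝ F) (_ : PosSMulMono ℝ F) (S T J : E → F) (x : E),
    (∀ a b : F, (∀ n : ℕ, n • a ≤ b) → a ≤ 0) ∧ OA S ∧ OA T ∧ IsJoin S T J ∧
      ¬ ∃ h : F, IsLUB {w | ∃ u v : E, u + v = x ∧ |u| ⊓ |v| = 0 ∧ w = S u + T v} h :=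
  ⟨E, F, inferInstance, inferInstance, inferInstance, inferInstance, inferInstance, inferInstance,
    inferInstance, inferInstance, inferInstance, inferInstance, S, fun _ => 0, J, one, arch, S_oa,
    fun _ _ _ => (add_zero _).symm, ⟨J_oa, S_le, J_nn, least⟩, nolub⟩

end Pool.Agent.Results.MP_f32e1d_an.Counter
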